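import Pool.Agent.U924.Trk.Sol

/-!
# The cost of approximate boundary tracking for the heat equation is at most `C exp (C / ε)`

Full positive answer to Q1 of MP_93c926_an. Let `L, T > 0`, and let `w` be a Lipschitz function on
`[0, T]` with `w(0) = 0` and the Lipschitz constant `K` (a function in `W^{1,∞}(0, T)` with
`‖w'‖_∞ ≤ K`). For all `ε > 0` there is a control `v` which achieves `ε`-approximate tracking of `w`
and has the norm

`‖v‖ ≤ 32 K L T exp (23 K L² / ε)`.

For `w(t) = t` this is sharp up to the constant in the exponent: by the theorem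
`TrackingCostLowerBound` of the starting files the cost is at least
`(2 ε² / L) (exp (L² / (8 ε)) - 1)`. So `exp (C / ε)` is the exact order of the cost.

The proof. Let `B_a` be the moving average over `[t - a, t]`. Put `a_j = 16 L² / (j + n + 1)²` and
`q = B_(a_0) B_(a_1) B_(a_2) ⋯ w` (`w` is extended by zero to the negative times). Then `q` is
smooth, it vanishes for `t ≤ 0`, and

* `|q - w| ≤ K ∑ a_j ≤ 16 K L² / n`;
* the derivative `q^(i) = Δ_(a_0) ⋯ Δ_(a_(i - 1)) B_(a_i) B_(a_(i + 1)) ⋯ w`, with the difference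
  quotients `Δ_a f(t) = (f(t) - f(t - a)) / a`, is bounded by
  `‖w‖ ∏_(j < i) (2 / a_j) = ‖w‖ (i! binom(n + i, i))² / (8 L²)^i ≤ 4^n ‖w‖ (2 i)! L^(-2 i) 2^(-i)`.

So `q` is of Gevrey order two, but with such constants that the series
`y(t, x) = ∑ x^(2 i + 1) / (2 i + 1)! q^(i)(t)` converges for `|x| ≤ L`; it is the solution of the heat
equation with `y = 0`, `y_x = q` for `x = 0`, and `|y| ≤ 2 L ‖w‖ 4^n`. With `n` about
`16 K L² / ε` this is the theorem. (The mollifiers `φ(t / δ) / δ` with a fixed function `φ` of Gevrey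
order `r ∈ (1, 2)` and `δ` about `ε` give only the known bounds `exp (C ε^(-1/s))`, `s < 1`. Here the
first `n ≈ 1 / ε` steps are much shorter than `ε`, of length about `ε²`.)
-/

set_option autoImplicit false

open Set Filter Topology
open Pool.Agent.R190.Trk Pool.Agent.U924.Trk
open scoped NNReal

namespace Pool.Agent.Results.MP_93c926_an.TrackingCostUpperBound

/-- The function which is equal to `w` on `[0, T]` and constant on the two sides. -/
noncomputable def clamp (T : ℝ) (w : ℝ → ℝ) (t : ℝ) : ℝ := w (max 0 (min t T))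

lemma clamp_dat {L T : ℝ} (hL : 0 < L) (hT : 0 < T) {w : ℝ → ℝ} {K : ℝ≥0}
    (hw : LipschitzOnWith K w (Icc 0 T)) (h0 : w 0 = 0) {n : ℕ} (hn : 0 < n) :
    Dat (st L n) (clamp T w) K (K * T) := by
  have hmem : ∀ t, max 0 (min t T) ∈ Icc 0 T := fun t =>
    ⟨le_max_left _ _, max_le hT.le (min_le_right _ _)⟩
  have hl : ∀ s t, |clamp T w s - clamp T w t| ≤ K * |s - t| := by
    intro s t
    have h1 := hw.dist_le_mul _ (hmem s) _ (hmem t)
    rw [Real.dist_eq, Real.dist_eq] at h1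
    refine h1.trans (mul_le_mul_of_nonneg_left ?_ K.2)
    have h2 := abs_max_sub_max_le_max (0 : ℝ) (min s T) 0 (min t T)
    have h3 := abs_min_sub_min_le_max s T t T
    rw [sub_self, abs_zero, max_eq_right (abs_nonneg (min s T - min t T))] at h2
    rw [sub_self, abs_zero, max_eq_left (abs_nonneg (s - t))] at h3
    exact h2.trans h3
  refine ⟨st_pos hL n, (sum_st n hn).1, K.2, hl, fun t => ?_, fun t ht => ?_⟩
  · have h1 := hw.dist_le_mul _ (hmem t) 0 ⟨le_rfl, hT.le⟩
    rw [Real.dist_eq, Real.dist_eq, h0, sub_zero, sub_zero] at h1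
    refine h1.trans (mul_le_mul_of_nonneg_left ?_ K.2)
    rw [abs_of_nonneg (hmem t).1]
    exact (hmem t).2
  · rw [clamp, min_eq_left (ht.trans hT.le), max_eq_left ht, h0]

/-- The control with an explicit bound. -/
theorem explicit {L T : ℝ} (hL : 0 < L) (hT : 0 < T) {w : ℝ → ℝ} {K : ℝ≥0}
    (hw : LipschitzOnWith K w (Icc 0 T)) (h0 : w 0 = 0) {ε : ℝ} (hε : 0 < ε) :
    ∃ v : ℝ → ℝ, Achieves L T w ε v ∧
      nrm T v ≤ 32 * K * L * T * Real.exp (23 * K * L ^ 2 / ε) := by
  have hK : (0 : ℝ) ≤ K := K.2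
  set r : ℝ := 16 * K * L ^ 2 / ε with hr
  have hr0 : 0 ≤ r := by positivity
  set n : ℕ := ⌈r⌉₊ + 1 with hn
  have hn0 : 0 < n := Nat.succ_pos _
  have hn' : (0 : ℝ) < n := by exact_mod_cast hn0
  have h1 : r ≤ n := (Nat.le_ceil r).trans (by rw [hn]; push_cast; linarith)
  have h2 : (n : ℝ) ≤ r + 2 := by
    rw [hn]
    push_cast
    linarith [(Nat.ceil_lt_add_one hr0).le]
  have h3 : (K : ℝ) * (16 * L ^ 2 / n) ≤ ε := by
    rw [show (K : ℝ) * (16 * L ^ 2 / n) = (16 * K * L ^ 2) / n by ring, div_le_iff₀ hn']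
    rw [hr, div_le_iff₀ hε] at h1
    linarith
  obtain ⟨h4, h5⟩ := achieves hL hT (clamp_dat hL hT hw h0 hn0) hn0 h3 (w' := w)
    (fun t ht => by rw [clamp, min_eq_left ht.2, max_eq_right ht.1])
  refine ⟨_, h4, h5.trans ?_⟩
  have h6 : (4 : ℝ) ^ n ≤ 16 * Real.exp (23 * K * L ^ 2 / ε) := by
    have hl : Real.log 4 = 2 * Real.log 2 := by
      rw [show (4 : ℝ) = 2 ^ 2 by norm_num, Real.log_pow]
      norm_num
    have hl2 : Real.log 4 ≤ 23 / 16 := by
      rw [hl]
      linarith [Real.log_two_lt_d9]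
    have hl0 : 0 ≤ Real.log 4 := Real.log_nonneg (by norm_num)
    calc (4 : ℝ) ^ n = Real.exp (Real.log 4 * n) := by
          rw [← Real.rpow_natCast, Real.rpow_def_of_pos (by norm_num)]
      _ ≤ Real.exp (Real.log 4 * 2 + 23 * K * L ^ 2 / ε) := by
          refine Real.exp_le_exp.2 ?_
          have h7 : Real.log 4 * n ≤ Real.log 4 * (r + 2) := mul_le_mul_of_nonneg_left h2 hl0
          have h8 : Real.log 4 * r ≤ 23 / 16 * r := mul_le_mul_of_nonneg_right hl2 hr0
          have h9 : 23 / 16 * r = 23 * K * L ^ 2 / ε := by rw [hr]; ring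
          linarith
      _ = 16 * Real.exp (23 * K * L ^ 2 / ε) := by
          rw [Real.exp_add, mul_comm (Real.log 4) 2, ← Nat.cast_ofNat, Real.exp_nat_mul,
            Real.exp_log (by norm_num)]
          norm_num
  calc 2 * L * (K * T) * 4 ^ n ≤ 2 * L * (K * T) * (16 * Real.exp (23 * K * L ^ 2 / ε)) :=
        mul_le_mul_of_nonneg_left h6 (by positivity)
    _ = 32 * K * L * T * Real.exp (23 * K * L ^ 2 / ε) := by ring

/-- **Positive answer to Q1.** Let `L, T > 0` and let `w` be Lipschitz on `[0, T]` with `w(0) = 0` and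
the Lipschitz constant `K`. For every `ε > 0` there is a control `v` which achieves `ε`-approximate
tracking of `w` with `‖v‖ ≤ 32 K L T exp (23 K L² / ε)`. In particular there is a constant `C > 0`
with `K_w(ε) ≤ C exp (C / ε)` for all `ε > 0`. -/
theorem result {L T : ℝ} (hL : 0 < L) (hT : 0 < T) {w : ℝ → ℝ} {K : ℝ≥0}
    (hw : LipschitzOnWith K w (Icc 0 T)) (h0 : w 0 = 0) :
    (∀ ε : ℝ, 0 < ε → ∃ v : ℝ → ℝ, Achieves L T w ε v ∧
      nrm T v ≤ 32 * K * L * T * Real.exp (23 * K * L ^ 2 / ε)) ∧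
    ∃ C : ℝ, 0 < C ∧ ∀ ε : ℝ, 0 < ε → Kw L T w ε ≤ ((C * Real.exp (C / ε) : ℝ) : EReal) := by
  refine ⟨fun ε hε => explicit hL hT hw h0 hε, ?_⟩
  have hK : (0 : ℝ) ≤ K := K.2
  refine ⟨32 * K * L * T + 23 * K * L ^ 2 + 1, by positivity, fun ε hε => ?_⟩
  obtain ⟨v, hv, hb⟩ := explicit hL hT hw h0 hε
  refine sInf_le_of_le ⟨v, hv, rfl⟩ (EReal.coe_le_coe_iff.2 (hb.trans ?_))
  have h1 : 0 ≤ 32 * K * L * T := by positivity
  have h2 : 0 ≤ 23 * K * L ^ 2 := by positivity
  refine mul_le_mul (by linarith) (Real.exp_le_exp.2 ?_) (Real.exp_pos _).le (by linarith)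
  exact div_le_div_of_nonneg_right (by linarith) hε.le

end Pool.Agent.Results.MP_93c926_an.TrackingCostUpperBound
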